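import Pool.Agent.Run7.h286.PL.StmM
import Pool.Agent.Run7.h784.TG.One3

/-!
# ONE2: for most primes the Selmer group becomes smaller by the factor `2 ^ (nr - 1)` (project PRL, extension M)

After `Run7/h784/TG/One.lean`, `One3.lean` of helper784.
-/

set_option autoImplicit false
set_option linter.all false

open Polynomial IsDedekindDomain
open scoped Classical

namespace Run7.h209.PL

open Pool.Agent.N874.PP (Ov Ev Sq1 S_CLS)
open Pool.Agent.N352.PJ (IsGen Crd LocIm SelZero Fam GoodR Ht dsc)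
open Run7.h875.TS (chi cd IsPC GSq irrD dg NRs uT sqf prD sqL sz Tr S_DOUBLE S_TRS)
open Run7.h784.TS (chi_zero chi_ne chi_cases chi_mul chi_le le_chi relIndex_eq_card card_zeros
  card_minpoly)
open Run7.h784.TG
open Run7.h286.PL (P_ONE2)

/-- the order of a finite group modulo squares is a power of two -/
theorem sz_pow {L : Type} [Field L] (G : Subgroup Lˣ) (h0 : sz G ≠ 0) : ∃ n : ℕ, sz G = 2 ^ n := by
  haveI : Fact (Nat.Prime 2) := ⟨Nat.prime_two⟩
  have h1 : sz G = Nat.card (G ⧸ (sqL L).subgroupOf G) := rfl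
  haveI : Finite (G ⧸ (sqL L).subgroupOf G) := Nat.finite_of_card_ne_zero (by rw [← h1]; exact h0)
  have h2 : IsPGroup 2 (G ⧸ (sqL L).subgroupOf G) := by
    intro x
    refine ⟨1, ?_⟩
    obtain ⟨y, rfl⟩ := QuotientGroup.mk_surjective x
    rw [pow_one, ← QuotientGroup.mk_pow, QuotientGroup.eq_one_iff, Subgroup.mem_subgroupOf]
    exact ⟨(y : Lˣ), rfl⟩
  obtain ⟨n, hn⟩ := IsPGroup.iff_card.1 h2
  exact ⟨n, h1.trans hn⟩

/-- The arithmetic of one step. -/
theorem arith2 {s h s' R : ℕ} (hs : ∃ n, s = 2 ^ n) (hh : ∃ n, h = 2 ^ n) (h1 : s ≤ 2 ^ R * h)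
    (h2 : s' * s ≤ 2 ^ R * h ^ 2) (h3 : s < 2 ^ R * s') : 2 * s ≤ 2 ^ R * h := by
  obtain ⟨a, rfl⟩ := hs
  obtain ⟨b, rfl⟩ := hh
  rw [← pow_add] at h1 ⊢
  have h4 : a ≤ R + b := (Nat.pow_le_pow_iff_right (by norm_num)).1 h1
  rcases h4.eq_or_lt with h5 | h5
  · exfalso
    have h6 : 2 ^ R * (s' * 2 ^ a) ≤ 2 ^ R * (2 ^ R * (2 ^ b) ^ 2) := Nat.mul_le_mul_left _ h2
    have h7 : 2 ^ R * (2 ^ R * (2 ^ b) ^ 2) = 2 ^ a * 2 ^ a := by rw [h5, pow_add]; ring
    have h8 : 2 ^ R * (s' * 2 ^ a) = (2 ^ R * s') * 2 ^ a := by ring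
    rw [h7, h8] at h6
    have h9 := Nat.le_of_mul_le_mul_right h6 (by positivity)
    omega
  · calc 2 * 2 ^ a = 2 ^ (a + 1) := by rw [pow_succ]; ring
      _ ≤ _ := Nat.pow_le_pow_right (by norm_num) h5

section main

variable {k K L O : Type} [Field k] [Finite k] [Field K] [Algebra k[X] K]
  [IsFractionRing k[X] K]
  [Field L] [Algebra K L] [Algebra k[X] L] [IsScalarTower k[X] K L] [CommRing O]
  [IsDedekindDomain O] [Algebra O L] [IsFractionRing O L] [Algebra k[X] O]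
  [IsScalarTower k[X] O L] [IsIntegralClosure O k[X] L] {g N₀ : ℕ} {ρ : k[X]} {f : k[X][X]} {θ : L}

variable {S : Finset k[X]} {u : k[X] → k[X]} {N : ℕ} {ι : Type} [Fintype ι]
  {r : ι → Lˣ} {z : ι → Fin (2 * g + 1) → k[X]} {i₀ : ι}

theorem place2 (hSTK : P_STK) (hDIC : P_DIC) (hSTEP : P_STEP) (hGRP : P_GRP) (hF : Fm g N₀ ρ f)
    (h : IsGen g K f θ)
    (hG : GoodT g f S u) (hr : Reps g O K f θ S u N r z i₀) (hs : sz (SelG O K f θ S u) ≠ 0)
    {F : Type} [Field F] [Fintype F] [Algebra k F] (t : F)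
    (ht : (minpoly k t).natDegree = Module.finrank k F) (hS : minpoly k t ∉ S)
    (hd : ¬ minpoly k t ∣ dsc g f) {w : k[X]} (hw : ¬ minpoly k t ∣ w) :
    (0 : ℝ) ≤ XX f z t + 2 ^ (2 * g + 1) * ZZ f z t ∧
    (sz (SelG O K f θ S u) < 2 ^ (nr O (minpoly k t) - 1) *
      sz (SelG O K f θ (insert (minpoly k t) S) (Function.update u (minpoly k t) w)) →
      (sz (SelG O K f θ S u) : ℝ) ≤ XX f z t + 2 ^ (2 * g + 1) * ZZ f z t) := by
  have hint : IsIntegral k t := Algebra.IsIntegral.isIntegral t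
  have hQm : (minpoly k t).Monic := minpoly.monic hint
  have hQi : Irreducible (minpoly k t) := minpoly.irreducible hint
  have hd' : aeval t (dsc g f) ≠ 0 := fun h0 => hd (minpoly.dvd k t h0)
  obtain ⟨hnr, T, hT, hsT, -, -, hT1, hT2⟩ :=
    hSTEP k K L O g N₀ ρ f θ hF h S u hG hs _ hQm hQi hS hd w hw
  obtain ⟨hD0, hDf, hD1, hD2⟩ := hDIC k K L O g N₀ ρ f θ hF h F t ht hd
  obtain ⟨hK1, hK2, hK3⟩ := hSTK k F g N₀ ρ f t hF hd'
  obtain ⟨-, hg2⟩ := (hGRP k K L O g N₀ ρ f θ hF h).2 S u hG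
  rw [hD0] at hT1 hT2 ⊢
  obtain ⟨R, hR⟩ : ∃ R, nf f t = R + 1 := ⟨nf f t - 1, by omega⟩
  have hRg : R ≤ 2 * g := by
    have h1 : nf f t ≤ 2 * g + 1 := by
      have hm : (f.map (evt (k := k) t)).Monic := h.mon.map _
      have hdg : (f.map (evt (k := k) t)).natDegree = 2 * g + 1 := by
        rw [h.mon.natDegree_map, h.deg]
      rw [← hdg]
      unfold nf
      have h2 := UniqueFactorizationMonoid.prod_normalizedFactors_eq hm.ne_zero
      have h3 : ((UniqueFactorizationMonoid.normalizedFactors (f.map (evt (k := k) t))).map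
          natDegree).sum = (f.map (evt (k := k) t)).natDegree := by
        rw [← natDegree_multiset_prod _ (UniqueFactorizationMonoid.zero_notMem_normalizedFactors _),
          h2]
        exact natDegree_eq_of_degree_eq degree_normalize
      rw [← h3]
      calc _ = ((UniqueFactorizationMonoid.normalizedFactors (f.map (evt (k := k) t))).map
            fun _ => 1).sum := by simp
        _ ≤ _ := Multiset.sum_map_le_sum_map _ _ fun p hp =>
            (UniqueFactorizationMonoid.irreducible_of_normalized_factor p hp).natDegree_pos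
    omega
  rw [hR, Nat.add_sub_cancel] at hT1 hT2 hD1 ⊢
  set Q := minpoly k t with hQ
  set G := SelG O K f θ S u with hGd
  set G' := SelG O K f θ (insert Q S) (Function.update u Q w) with hGd'
  obtain ⟨i1, i2⟩ := inf_index G T hg2 hsT hs
  have hcard : (sz G : ℝ) = ∑ i : ι, (1 : ℝ) := by
    rw [hr.card]
    simp
  have hinf := hr.card_inf T hsT
  -- the comparison
  have hCC : ∀ i, (2 : ℝ) ^ R * (if r i ∈ T then 1 else 0) ≤ 1 + DD f (z i) t +
      2 ^ (2 * g + 1) * (if nv (f.map (evt (k := k) t)) (zp (evt (k := k) t) (z i)) = 0 then 1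
        else 0) := by
    intro i
    rw [← CC_eq h.mon]
    by_cases hi : nv (f.map (evt (k := k) t)) (zp (evt (k := k) t) (z i)) = 0
    · rw [if_pos hi]
      have h1 : -(2 : ℝ) ^ R ≤ Run7.h784.TG.CC f (z i) t := by
        unfold Run7.h784.TG.CC
        rw [finsum_mem_eq_finite_toFinset_sum _ hDf]
        calc -(2 : ℝ) ^ R = ∑ a ∈ hDf.toFinset, (-1 : ℝ) := by
              rw [Finset.sum_const, ← Set.ncard_eq_toFinset_card _ hDf, hD1]
              simp
          _ ≤ _ := Finset.sum_le_sum fun a _ => le_chi _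
      have h2 : (2 : ℝ) ^ R ≤ 2 ^ (2 * g) := pow_le_pow_right₀ (by norm_num) hRg
      have h3 : (2 : ℝ) ^ (2 * g + 1) = 2 * 2 ^ (2 * g) := by rw [pow_succ]; ring
      have h4 : (0 : ℝ) ≤ 2 ^ R := by positivity
      rw [h3]
      split_ifs <;> linarith
    · rw [if_neg hi, mul_zero, add_zero]
      obtain ⟨-, j1, j2⟩ := hD2 (r i : L) (z i) (r i).ne_zero (hr.sel i).nsq (hr.crd i) hi
      by_cases hri : r i ∈ T
      · rw [if_pos hri, mul_one]
        have h5 := j1 ((hT _).1 hri)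
        have h6 : Run7.h784.TG.CC f (z i) t = ∑ᶠ a ∈ evd f t, (1 : ℝ) := by
          unfold Run7.h784.TG.CC
          exact finsum_mem_congr rfl fun a ha => h5 a ha
        rw [h6, finsum_mem_eq_finite_toFinset_sum _ hDf, Finset.sum_const,
          ← Set.ncard_eq_toFinset_card _ hDf, hD1]
        simp
      · rw [if_neg hri, mul_zero]
        have h5 := j2 (fun h0 => hri ((hT _).2 h0))
        exact h5.ge
  have hsum : (2 : ℝ) ^ R * sz (G ⊓ T) ≤ sz G + XX f z t + 2 ^ (2 * g + 1) * ZZ f z t := by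
    rw [hinf, hcard]
    unfold XX ZZ
    rw [Finset.mul_sum, Finset.mul_sum, ← Finset.sum_add_distrib, ← Finset.sum_add_distrib]
    exact Finset.sum_le_sum fun i _ => hCC i
  have hY : (sz G : ℝ) ≤ 2 ^ R * sz (G ⊓ T) := by exact_mod_cast hT1
  refine ⟨by linarith, fun hc => ?_⟩
  have hs1 : sz (G ⊓ T) ≠ 0 := by
    intro h0
    rw [h0, mul_zero] at hT1
    exact hs (Nat.le_zero.1 hT1)
  have h9 := arith2 (sz_pow G hs) (sz_pow (G ⊓ T) hs1) hT1 hT2 hc
  have h10 : (2 : ℝ) * sz G ≤ 2 ^ R * sz (G ⊓ T) := by exact_mod_cast h9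
  linarith

theorem two_aux (hSTK : P_STK) (hDIC : P_DIC) (hSTEP : P_STEP) (hGRP : P_GRP) (hF : Fm g N₀ ρ f)
    (h : IsGen g K f θ)
    (hG : GoodT g f S u) (hr : Reps g O K f θ S u N r z i₀) (hs : sz (SelG O K f θ S u) ≠ 0)
    {F : Type} [Field F] [Fintype F] [Algebra k F]
    {m : ℕ} (hm : Module.finrank k F = m)
    (hT : ∀ φ : k[X] → ℝ, (m : ℝ) * ∑ Q ∈ irrD k m, φ Q =
      ∑ t ∈ Finset.univ.filter fun t : F => (minpoly k t).natDegree = m, φ (minpoly k t))
    (hT' : ((Finset.univ.filter fun t : F => (minpoly k t).natDegree ≠ m).card : ℝ) ≤ 2 * √(cd F))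
    (w : k[X] → k[X]) (hw : ∀ Q : k[X], Irreducible Q → ¬ Q ∣ w Q) :
    (m : ℝ) * (((irrD k m).filter (fun Q => Q ∉ S ∧ ¬ Q ∣ dsc g f ∧
        sz (SelG O K f θ S u) < 2 ^ (nr O Q - 1) *
          sz (SelG O K f θ (insert Q S) (Function.update u Q (w Q))))).card : ℝ) *
        sz (SelG O K f θ S u) ≤
      ∑ t : F, XX f z t + 2 ^ (2 * g + 1) * ∑ t : F, ZZ f z t +
        KK g * Fintype.card ι * (2 * √(cd F) + dg S + (dsc g f).natDegree) := by
  have e0 : (m : ℝ) * (((irrD k m).filter (fun Q => Q ∉ S ∧ ¬ Q ∣ dsc g f ∧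
        sz (SelG O K f θ S u) < 2 ^ (nr O Q - 1) *
          sz (SelG O K f θ (insert Q S) (Function.update u Q (w Q))))).card : ℝ) *
        sz (SelG O K f θ S u) =
      (m : ℝ) * ∑ Q ∈ irrD k m, (if Q ∉ S ∧ ¬ Q ∣ dsc g f ∧
        sz (SelG O K f θ S u) < 2 ^ (nr O Q - 1) *
          sz (SelG O K f θ (insert Q S) (Function.update u Q (w Q))) then
        (sz (SelG O K f θ S u) : ℝ) else 0) := by
    rw [← Finset.sum_filter, Finset.sum_const, nsmul_eq_mul, mul_assoc]
  rw [e0, hT, Finset.sum_filter]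
  have h0 : (0 : ℝ) ≤ Fintype.card ι := by positivity
  have hK := KK_nonneg g
  have hKc : 0 ≤ KK g * (Fintype.card ι : ℝ) := by positivity
  have key : ∀ t : F, (if (minpoly k t).natDegree = m then
      (if minpoly k t ∉ S ∧ ¬ minpoly k t ∣ dsc g f ∧
        sz (SelG O K f θ S u) < 2 ^ (nr O (minpoly k t) - 1) *
          sz (SelG O K f θ (insert (minpoly k t) S)
            (Function.update u (minpoly k t) (w (minpoly k t)))) then
        (sz (SelG O K f θ S u) : ℝ) else 0) else 0) ≤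
      XX f z t + 2 ^ (2 * g + 1) * ZZ f z t + KK g * Fintype.card ι *
        ((if (minpoly k t).natDegree ≠ m then 1 else 0) + (if minpoly k t ∈ S then 1 else 0) +
          (if aeval t (dsc g f) = 0 then 1 else 0)) := by
    intro t
    have hZ := ZZ_nonneg f z t
    have hZ' : (0 : ℝ) ≤ 2 ^ (2 * g + 1) * ZZ f z t := by positivity
    have hR := (abs_le.1 (abs_XX_le (ι := ι) h.mon h.deg z t)).1
    have hint : IsIntegral k t := Algebra.IsIntegral.isIntegral t
    have hQi : Irreducible (minpoly k t) := minpoly.irreducible hint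
    have E1 : (0 : ℝ) ≤ (if (minpoly k t).natDegree ≠ m then 1 else 0) := by
      split_ifs <;> norm_num
    have E2 : (0 : ℝ) ≤ (if minpoly k t ∈ S then 1 else 0) := by
      split_ifs <;> norm_num
    have E3 : (0 : ℝ) ≤ (if aeval t (dsc g f) = 0 then 1 else 0) := by
      split_ifs <;> norm_num
    have hbad : (1 : ℝ) ≤ (if (minpoly k t).natDegree ≠ m then 1 else 0) +
        (if minpoly k t ∈ S then 1 else 0) + (if aeval t (dsc g f) = 0 then 1 else 0) →
        (0 : ℝ) ≤ XX f z t + 2 ^ (2 * g + 1) * ZZ f z t + KK g * Fintype.card ι *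
        ((if (minpoly k t).natDegree ≠ m then 1 else 0) + (if minpoly k t ∈ S then 1 else 0) +
          (if aeval t (dsc g f) = 0 then 1 else 0)) := by
      intro hb
      have := mul_le_mul_of_nonneg_left hb hKc
      linarith
    by_cases c1 : (minpoly k t).natDegree = m
    · by_cases c2 : minpoly k t ∉ S ∧ ¬ minpoly k t ∣ dsc g f
      · obtain ⟨p1, p2⟩ := place2 hSTK hDIC hSTEP hGRP hF h hG hr hs t (c1.trans hm.symm) c2.1 c2.2
          (hw _ hQi)
        have hnn : 0 ≤ KK g * (Fintype.card ι : ℝ) *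
            ((if (minpoly k t).natDegree ≠ m then 1 else 0) +
            (if minpoly k t ∈ S then 1 else 0) + (if aeval t (dsc g f) = 0 then 1 else 0)) := by
          positivity
        rw [if_pos c1]
        by_cases c3 : sz (SelG O K f θ S u) < 2 ^ (nr O (minpoly k t) - 1) *
          sz (SelG O K f θ (insert (minpoly k t) S)
            (Function.update u (minpoly k t) (w (minpoly k t))))
        · rw [if_pos ⟨c2.1, c2.2, c3⟩]
          have := p2 c3
          linarith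
        · rw [if_neg (fun hc => c3 hc.2.2)]
          linarith
      · rw [if_pos c1, if_neg (fun hc => c2 ⟨hc.1, hc.2.1⟩)]
        apply hbad
        by_cases c3 : minpoly k t ∈ S
        · rw [if_pos c3]
          linarith
        · have c4 : minpoly k t ∣ dsc g f := by
            by_contra c4
            exact c2 ⟨c3, c4⟩
          have c5 : aeval t (dsc g f) = 0 := by
            obtain ⟨v, hv⟩ := c4
            rw [hv, map_mul, minpoly.aeval, zero_mul]
          rw [if_pos c5]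
          linarith
    · rw [if_neg c1]
      apply hbad
      rw [if_pos c1]
      linarith
  refine (Finset.sum_le_sum fun t _ => key t).trans ?_
  rw [Finset.sum_add_distrib, Finset.sum_add_distrib, ← Finset.mul_sum, ← Finset.mul_sum,
    Finset.sum_add_distrib, Finset.sum_add_distrib, Finset.sum_boole, Finset.sum_boole,
    Finset.sum_boole]
  have f2 : ((Finset.univ.filter fun t : F => minpoly k t ∈ S).card : ℝ) ≤ dg S := by
    exact_mod_cast card_minpoly S (fun P hP => (hG.irr P hP).ne_zero)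
  have f3 : ((Finset.univ.filter fun t : F => aeval t (dsc g f) = 0).card : ℝ) ≤
      (dsc g f).natDegree := by
    exact_mod_cast card_zeros (dsc_ne hF)
  have f4 : KK g * (Fintype.card ι : ℝ) *
      (((Finset.univ.filter fun t : F => (minpoly k t).natDegree ≠ m).card : ℝ) +
      ((Finset.univ.filter fun t : F => minpoly k t ∈ S).card : ℝ) +
      ((Finset.univ.filter fun t : F => aeval t (dsc g f) = 0).card : ℝ)) ≤
      KK g * Fintype.card ι * (2 * √(cd F) + dg S + (dsc g f).natDegree) := by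
    apply mul_le_mul_of_nonneg_left _ hKc
    linarith
  linarith

end main

/-- **ONE2** -/
theorem T_ONE2 (hW : P_W) (hSTK : P_STK) (hTRS : S_TRS) (hDIC : P_DIC) (hSTEP : P_STEP)
    (hREP : P_REP) (hGRP : P_GRP) : P_ONE2 := by
  intro k K L O _ _ _ _ _ _ _ _ _ _ _ _ _ _ _ _ g N₀ ρ f θ hF hfull h
  obtain ⟨⟨C₁, hC₁⟩, hfin⟩ := hREP k K L O g N₀ ρ f θ hF h
  obtain ⟨C₂, hC₂⟩ := exists_WU (K := K) (L := L) hW hF hfull h
  obtain ⟨κ, hκ⟩ : ∃ κ : ℕ, κ = g * (2 ^ (2 * g + 1)) ^ 2 := ⟨_, rfl⟩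
  have hκ' : KK g = κ := by rw [hκ]; unfold KK; push_cast; ring
  obtain ⟨lam, hlam⟩ : ∃ l : ℕ, l = 2 ^ (2 * g + 1) * (4 * g + 1) := ⟨_, rfl⟩
  refine ⟨g + g * C₂ + g * C₂ * (1 + C₁) + lam * (C₁ + cdg f) +
    κ * (3 + (dsc g f).natDegree), ?_⟩
  intro S u hG w hw m hm
  have hs : sz (SelG O K f θ S u) ≠ 0 := hfin S u hG
    ((hGRP k K L O g N₀ ρ f θ hF h).2 S u hG).1
  obtain ⟨ι, _, r, z, i₀, hr⟩ := exists_reps (N := C₁ * (1 + dg S)) hGRP hF h hG
    (fun α hα => hC₁ S u hG α hα) hs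
  obtain ⟨F, _, _, _, hF1, hF2, hF3, hF4⟩ := hTRS k m hm
  have e1 := two_aux hSTK hDIC hSTEP hGRP hF h hG hr hs (F := F) hF1 hF3 hF4 w hw
  have e2 := sum_XX h (hC₂ F) hr.crd hr.deg (fun i => (hr.sel i).nsq) hr.one hr.z0
  have e3 := sum_ZZ (F := F) h hr.crd hr.deg
  have hcard := hr.card
  have hs1 : (1 : ℝ) ≤ Fintype.card ι := by
    rw [← hcard]
    exact_mod_cast Nat.one_le_iff_ne_zero.2 hs
  rw [hcard] at e1 ⊢
  rw [← hF2]
  have hq : (1 : ℝ) ≤ cd F := by
    rw [hF2]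
    apply one_le_pow₀
    exact_mod_cast (Nat.card_pos : 0 < Nat.card k)
  have hM : (1 : ℝ) ≤ √(cd F) := by
    rw [Real.one_le_sqrt]
    exact hq
  refine e1.trans ?_
  have e4 : (2 : ℝ) ^ (2 * g + 1) * ∑ t : F, ZZ f z t ≤
      lam * (Fintype.card ι * (C₁ * (1 + dg S) + cdg f)) := by
    refine (mul_le_mul_of_nonneg_left e3 (by positivity)).trans (le_of_eq ?_)
    rw [hlam]
    push_cast
    ring
  rw [hκ']
  push_cast at e2 e4 ⊢
  generalize hXX : ∑ t : F, XX f z t = xx at *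
  generalize hZZ : (2 : ℝ) ^ (2 * g + 1) * ∑ t : F, ZZ f z t = zz at *
  generalize hq_def : (cd F : ℝ) = q at *
  generalize hs_def : (Fintype.card ι : ℝ) = s at *
  generalize hM_def : √q = M at *
  generalize hG_def : (dg S : ℝ) = G at *
  generalize hD_def : ((dsc g f).natDegree : ℝ) = D at *
  generalize hE_def : (cdg f : ℝ) = E at *
  generalize hc₁_def : (C₁ : ℝ) = c₁ at *
  generalize hc₂_def : (C₂ : ℝ) = c₂ at *
  generalize hg_def : (g : ℝ) = γ at *
  generalize hk_def : (κ : ℝ) = κ' at *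
  generalize hl_def : (lam : ℝ) = l at *
  have hGn : 0 ≤ G := by rw [← hG_def]; positivity
  have hD : 0 ≤ D := by rw [← hD_def]; positivity
  have hE : 0 ≤ E := by rw [← hE_def]; positivity
  have hc1 : 0 ≤ c₁ := by rw [← hc₁_def]; positivity
  have hc2 : 0 ≤ c₂ := by rw [← hc₂_def]; positivity
  have hγ : 0 ≤ γ := by rw [← hg_def]; positivity
  have hkn : 0 ≤ κ' := by rw [← hk_def]; positivity
  have hl : 0 ≤ l := by rw [← hl_def]; positivity
  have hs0 : 0 ≤ s := by linarith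
  have hM0 : 0 ≤ M := by linarith
  have hq0 : 0 ≤ q := by linarith
  obtain ⟨V, hV⟩ : ∃ V, V = (1 + G) * M * s := ⟨_, rfl⟩
  have hV0 : 0 ≤ V := by rw [hV]; positivity
  have v1 : M * s ≤ V := by
    rw [hV]
    nlinarith [mul_nonneg hGn (mul_nonneg hM0 hs0)]
  have v2 : M ≤ V := by nlinarith [mul_nonneg hM0 (sub_nonneg.2 hs1)]
  have v3 : s * (1 + G) ≤ V := by
    rw [hV]
    nlinarith [mul_nonneg (mul_nonneg hs0 (by linarith : (0 : ℝ) ≤ 1 + G)) (sub_nonneg.2 hM)]
  have v4 : s ≤ V := by nlinarith [mul_nonneg hs0 hGn]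
  have v5 : s * G ≤ V := by nlinarith [mul_nonneg hs0 hGn]
  have w2 : γ * c₂ * M ≤ γ * c₂ * V := mul_le_mul_of_nonneg_left v2 (by positivity)
  have w3 : γ * c₂ * (M * s) ≤ γ * c₂ * V := mul_le_mul_of_nonneg_left v1 (by positivity)
  have w4 : l * c₁ * (s * (1 + G)) ≤ l * c₁ * V := mul_le_mul_of_nonneg_left v3 (by positivity)
  have w5 : l * E * s ≤ l * E * V := mul_le_mul_of_nonneg_left v4 (by positivity)
  have w6 : κ' * D * s ≤ κ' * D * V := mul_le_mul_of_nonneg_left v4 (by positivity)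
  have w7 : κ' * (M * s) ≤ κ' * V := mul_le_mul_of_nonneg_left v1 hkn
  have w8 : κ' * (s * G) ≤ κ' * V := mul_le_mul_of_nonneg_left v5 hkn
  have e9 : (γ + γ * c₂ + γ * c₂ * (1 + c₁) + l * (c₁ + E) + κ' * (3 + D)) * (1 + G) * M * s =
      γ * V + γ * c₂ * V + γ * c₂ * V + γ * c₂ * c₁ * V + l * c₁ * V + l * E * V +
        3 * (κ' * V) + κ' * D * V := by
    rw [hV]; ring
  have y0 : (γ + γ * c₂ + γ * c₂ * (1 + c₁) + l * (c₁ + E) + κ' * (3 + D)) * q =
      γ * q + (γ * c₂ + γ * c₂ * (1 + c₁) + l * (c₁ + E) + κ' * (3 + D)) * q := by ring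
  have y1 : 0 ≤ (γ * c₂ + γ * c₂ * (1 + c₁) + l * (c₁ + E) + κ' * (3 + D)) * q := by positivity
  have y2 : γ * (q + c₂ * M) + s * (γ * (c₂ * (1 + c₁ * (1 + G)) * M)) =
      γ * q + γ * c₂ * M + γ * c₂ * (M * s) + γ * c₂ * c₁ * V := by rw [hV]; ring
  have y3 : l * (s * (c₁ * (1 + G) + E)) = l * c₁ * (s * (1 + G)) + l * E * s := by ring
  have y4 : κ' * s * (2 * M + G + D) = 2 * (κ' * (M * s)) + κ' * (s * G) + κ' * D * s := by ring
  have y5 : 0 ≤ γ * V := by positivity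
  rw [e9, y0, y4]
  rw [y2] at e2
  rw [y3] at e4
  linarith

end Run7.h209.PL
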