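import Mathlib

/-!
# The completion of a Dedekind domain at a principal prime

`A` Dedekind, `v = (ϖ)`, `R = v.adicCompletionIntegers K`: the maximal ideal is `(ϖ)`, `R` is complete, and
`A → R / (maximal ideal)` is surjective with kernel `v`.
-/

set_option autoImplicit false

open Polynomial IsDedekindDomain Filter Topology WithZero

namespace Run7.h209.PL

theorem nonarch {L : Type*} [Field L] [Valued L (WithZero (Multiplicative ℤ))] :
    NonarchimedeanAddGroup L where
  is_nonarchimedean U hU := by
    obtain ⟨γ, hγ⟩ := Valued.mem_nhds_zero.1 hU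
    refine ⟨⟨Valuation.ltAddSubgroup (Valued.v (R := L)).restrict γ, ?_⟩, ?_⟩
    · exact Valued.isOpen_ball L γ.1
    · intro x hx
      exact hγ hx

section

variable {A K : Type} [CommRing A] [IsDedekindDomain A] [Field K] [Algebra A K] [IsFractionRing A K]
  (v : HeightOneSpectrum A)

theorem vA (a : A) : Valued.v (algebraMap A (v.adicCompletion K) a) = v.valuation K (algebraMap A K a) :=
  HeightOneSpectrum.valuedAdicCompletion_eq_valuation v a

theorem vK (x : K) : Valued.v (algebraMap K (v.adicCompletion K) x) = v.valuation K x :=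
  HeightOneSpectrum.valuedAdicCompletion_eq_valuation' v x

theorem coe_algebraMap (a : A) :
    ((algebraMap A (v.adicCompletionIntegers K) a : v.adicCompletionIntegers K) : v.adicCompletion K) =
      algebraMap A (v.adicCompletion K) a := rfl

theorem near_one (y : v.adicCompletion K) :
    ∃ x : K, Valued.v (y - algebraMap K (v.adicCompletion K) x) < 1 := by
  have hU : {z : v.adicCompletion K | Valued.v z < 1} ∈ nhds (0 : v.adicCompletion K) := by
    rw [Valued.mem_nhds_zero]
    exact ⟨1, fun z hz => by
      have := (Valuation.restrict_lt_iff_lt_embedding _).1 hz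
      simpa using this⟩
  have ht : Filter.Tendsto (fun z : v.adicCompletion K => y - z) (nhds y) (nhds 0) := by
    have h5 : Filter.Tendsto (fun z : v.adicCompletion K => y - z) (nhds y) (nhds (y - y)) :=
      tendsto_const_nhds.sub Filter.tendsto_id
    rwa [sub_self] at h5
  obtain ⟨z, hz, x, rfl⟩ := mem_closure_iff_nhds.1
    (HeightOneSpectrum.denseRange_algebraMap K v y) _ (ht hU)
  exact ⟨x, hz⟩

variable {v} {ϖ : A} (hϖ : v.asIdeal = Ideal.span {ϖ})

include hϖ

theorem v_unif : Valued.v (algebraMap A (v.adicCompletion K) ϖ) = exp (-1 : ℤ) := by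
  rw [vA, HeightOneSpectrum.valuation_of_algebraMap]
  refine v.intValuation_singleton ?_ hϖ
  rintro rfl
  exact v.ne_bot (by rw [hϖ]; simp)

theorem mem_pow_iff (n : ℕ) (x : v.adicCompletionIntegers K) :
    x ∈ (Ideal.span {algebraMap A (v.adicCompletionIntegers K) ϖ}) ^ n ↔
      Valued.v (Γ₀ := WithZero (Multiplicative ℤ)) (x : v.adicCompletion K) ≤ exp (-(n : ℤ)) := by
  rw [Ideal.span_singleton_pow, Ideal.mem_span_singleton,
    (HeightOneSpectrum.adicCompletionIntegers.integers (K := K) (v := v)).dvd_iff_le]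
  have e : Valued.v (Γ₀ := WithZero (Multiplicative ℤ)) (algebraMap (v.adicCompletionIntegers K) (v.adicCompletion K)
      (algebraMap A (v.adicCompletionIntegers K) ϖ ^ n)) = exp (-(n : ℤ)) := by
    rw [map_pow, map_pow]
    have := v_unif (K := K) hϖ
    have e2 : Valued.v (Γ₀ := WithZero (Multiplicative ℤ)) (algebraMap (v.adicCompletionIntegers K) (v.adicCompletion K)
      (algebraMap A (v.adicCompletionIntegers K) ϖ)) = exp (-1 : ℤ) := this
    rw [e2, ← exp_nsmul]
    congr 1
    simp
  rw [e]
  rfl

theorem prec : IsPrecomplete (Ideal.span {algebraMap A (v.adicCompletionIntegers K) ϖ})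
    (v.adicCompletionIntegers K) := by
  have hϖ1 : Valued.v (Γ₀ := WithZero (Multiplicative ℤ)) (algebraMap A (v.adicCompletion K) ϖ) < 1 := by
    rw [v_unif (K := K) hϖ, ← exp_zero, exp_lt_exp]
    norm_num
  constructor
  intro f hf
  have hf1 : ∀ {m n : ℕ}, m ≤ n → Valued.v (Γ₀ := WithZero (Multiplicative ℤ))
      ((f m : v.adicCompletion K) - (f n : v.adicCompletion K)) ≤
      Valued.v (Γ₀ := WithZero (Multiplicative ℤ)) (algebraMap A (v.adicCompletion K) ϖ ^ m) := by
    intro m n hmn
    have h1 := hf hmn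
    rw [SModEq.sub_mem, smul_eq_mul, Ideal.mul_top, mem_pow_iff (K := K) hϖ] at h1
    rw [map_pow, v_unif (K := K) hϖ, ← exp_nsmul]
    have e : m • (-1 : ℤ) = -(m : ℤ) := by simp
    rw [e]
    exact h1
  set z : ℕ → v.adicCompletion K := fun n => (f n : v.adicCompletion K) with hz
  have := nonarch (L := v.adicCompletion K)
  have hlim : Tendsto (fun n => z (n + 1) - z n) atTop (𝓝 0) := by
    have h3 : Tendsto (fun n : ℕ => (algebraMap A (v.adicCompletion K) ϖ) ^ n) atTop (𝓝 0) :=
      Valued.tendsto_zero_pow_of_v_lt_one hϖ1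
    rw [(Valued.hasBasis_nhds_zero (v.adicCompletion K) _).tendsto_right_iff] at h3 ⊢
    intro γ hγ
    filter_upwards [h3 γ hγ] with n hn
    have h5 : Valued.v (Γ₀ := WithZero (Multiplicative ℤ)) (z (n + 1) - z n) ≤
        Valued.v (Γ₀ := WithZero (Multiplicative ℤ)) ((algebraMap A (v.adicCompletion K) ϖ) ^ n) := by
      rw [Valuation.map_sub_swap]
      exact hf1 (Nat.le_succ n)
    have h4 : (Valued.v (R := v.adicCompletion K)).restrict (z (n + 1) - z n) ≤
        (Valued.v (R := v.adicCompletion K)).restrict ((algebraMap A (v.adicCompletion K) ϖ) ^ n) :=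
      (Valuation.restrict_le_iff _).2 h5
    exact lt_of_le_of_lt h4 hn
  have hcau : CauchySeq z := NonarchimedeanAddGroup.cauchySeq_of_tendsto_sub_nhds_zero hlim
  obtain ⟨L, hL⟩ := cauchySeq_tendsto_of_complete hcau
  have hclose : ∀ n, Valued.v (Γ₀ := WithZero (Multiplicative ℤ)) (z n - L) ≤
      Valued.v (Γ₀ := WithZero (Multiplicative ℤ)) ((algebraMap A (v.adicCompletion K) ϖ) ^ n) := by
    intro n
    have hcl : IsClosed {y : v.adicCompletion K |
        (Valued.v (R := v.adicCompletion K)).restrict (z n - y) ≤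
        (Valued.v (R := v.adicCompletion K)).restrict ((algebraMap A (v.adicCompletion K) ϖ) ^ n)} := by
      have h7 := Valued.isClosed_closedBall (v.adicCompletion K)
        ((Valued.v (R := v.adicCompletion K)).restrict ((algebraMap A (v.adicCompletion K) ϖ) ^ n))
      exact h7.preimage (f := fun y : v.adicCompletion K => z n - y) (by fun_prop)
    have h8 := hcl.mem_of_tendsto hL (by
      filter_upwards [eventually_ge_atTop n] with m hm
      exact (Valuation.restrict_le_iff _).2 (hf1 hm))
    exact (Valuation.restrict_le_iff _).1 h8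
  have hLint : Valued.v (Γ₀ := WithZero (Multiplicative ℤ)) L ≤ 1 := by
    have h1 := hclose 0
    rw [pow_zero, map_one] at h1
    have e : L = z 0 - (z 0 - L) := by ring
    rw [e]
    exact (Valuation.map_sub _ _ _).trans (max_le (f 0).2 h1)
  refine ⟨⟨L, hLint⟩, fun n => ?_⟩
  rw [SModEq.sub_mem, smul_eq_mul, Ideal.mul_top, mem_pow_iff (K := K) hϖ]
  have h9 := hclose n
  rw [map_pow, v_unif (K := K) hϖ, ← exp_nsmul] at h9
  have e : n • (-1 : ℤ) = -(n : ℤ) := by simp
  rw [e] at h9
  exact h9

theorem haus : IsHausdorff (Ideal.span {algebraMap A (v.adicCompletionIntegers K) ϖ})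
    (v.adicCompletionIntegers K) := by
  constructor
  intro x hx
  have h1 : ∀ n : ℕ, Valued.v (Γ₀ := WithZero (Multiplicative ℤ)) (x : v.adicCompletion K) ≤ exp (-(n : ℤ)) := by
    intro n
    have h2 := hx n
    rw [SModEq.zero, smul_eq_mul, Ideal.mul_top] at h2
    exact (mem_pow_iff (K := K) hϖ n x).1 h2
  by_contra hne
  have hne' : Valued.v (Γ₀ := WithZero (Multiplicative ℤ)) (x : v.adicCompletion K) ≠ 0 := by
    rw [Valuation.ne_zero_iff]
    intro h0
    exact hne (Subtype.ext h0)
  have h2 := h1 ((-(log (Valued.v (Γ₀ := WithZero (Multiplicative ℤ)) (x : v.adicCompletion K)))).toNat + 1)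
  rw [← exp_log hne', exp_le_exp] at h2
  push_cast at h2
  have h3 := Int.self_le_toNat
    (-(log (Valued.v (Γ₀ := WithZero (Multiplicative ℤ)) (x : v.adicCompletion K))))
  rw [log_exp] at h2
  omega

theorem adic : IsAdicComplete (Ideal.span {algebraMap A (v.adicCompletionIntegers K) ϖ})
    (v.adicCompletionIntegers K) := by
  have := prec (K := K) hϖ
  have := haus (K := K) hϖ
  exact {}

theorem maxIdeal : IsLocalRing.maximalIdeal (v.adicCompletionIntegers K) =
    Ideal.span {algebraMap A (v.adicCompletionIntegers K) ϖ} := by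
  ext x
  have h := mem_pow_iff (K := K) hϖ 1 x
  rw [pow_one] at h
  rw [h, IsLocalRing.mem_maximalIdeal, mem_nonunits_iff,
    HeightOneSpectrum.adicCompletionIntegers.isUnit_iff_valued_eq_one]
  have hx : Valued.v (Γ₀ := WithZero (Multiplicative ℤ)) (x : v.adicCompletion K) ≤ 1 := x.2
  constructor
  · intro h1
    have h2 : Valued.v (Γ₀ := WithZero (Multiplicative ℤ)) (x : v.adicCompletion K) < 1 :=
      lt_of_le_of_ne hx h1
    rcases eq_or_ne (Valued.v (Γ₀ := WithZero (Multiplicative ℤ)) (x : v.adicCompletion K)) 0 with h0 | h0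
    · rw [h0]
      exact zero_le
    · rw [← exp_log h0, ← exp_zero, exp_lt_exp] at h2
      rw [← exp_log h0, exp_le_exp]
      push_cast
      omega
  · intro h1 h2
    rw [h2, ← exp_zero, exp_le_exp] at h1
    norm_num at h1

omit hϖ in
/-- approximation by elements of `A` -/
theorem near_A (x : v.adicCompletionIntegers K) :
    ∃ a : A, x - algebraMap A (v.adicCompletionIntegers K) a ∈
      IsLocalRing.maximalIdeal (v.adicCompletionIntegers K) := by
  obtain ⟨y, hy⟩ := near_one (K := K) v (x : v.adicCompletion K)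
  have hx : Valued.v (Γ₀ := WithZero (Multiplicative ℤ)) (x : v.adicCompletion K) ≤ 1 := x.2
  have hy1 : v.valuation K y ≤ 1 := by
    rw [← vK]
    have e : algebraMap K (v.adicCompletion K) y =
      (x : v.adicCompletion K) - ((x : v.adicCompletion K) - algebraMap K (v.adicCompletion K) y) := by ring
    have := (Valuation.map_sub (Valued.v (R := v.adicCompletion K)) (x : v.adicCompletion K)
      ((x : v.adicCompletion K) - algebraMap K (v.adicCompletion K) y)).trans (max_le hx hy.le)
    rw [← e] at this
    exact this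
  obtain ⟨a, ha⟩ := v.exists_valuation_sub_lt_of_integer hy1 1
  rw [Units.val_one] at ha
  refine ⟨a, ?_⟩
  rw [IsLocalRing.mem_maximalIdeal, mem_nonunits_iff,
    HeightOneSpectrum.adicCompletionIntegers.isUnit_iff_valued_eq_one]
  apply ne_of_lt
  have e : ((x - algebraMap A (v.adicCompletionIntegers K) a : v.adicCompletionIntegers K) :
      v.adicCompletion K) = ((x : v.adicCompletion K) - algebraMap K (v.adicCompletion K) y) -
      algebraMap K (v.adicCompletion K) (algebraMap A K a - y) := by
    rw [map_sub, ← IsScalarTower.algebraMap_apply A K (v.adicCompletion K)]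
    show (x : v.adicCompletion K) - algebraMap A (v.adicCompletion K) a = _
    ring
  rw [e]
  refine Valuation.map_sub_lt _ hy ?_
  rw [vK]
  exact ha

theorem mem_iff (a : A) : algebraMap A (v.adicCompletionIntegers K) a ∈
    IsLocalRing.maximalIdeal (v.adicCompletionIntegers K) ↔ ϖ ∣ a := by
  rw [IsLocalRing.mem_maximalIdeal, mem_nonunits_iff,
    HeightOneSpectrum.adicCompletionIntegers.isUnit_iff_valued_eq_one]
  rw [← Ideal.mem_span_singleton, ← hϖ, ← v.valuation_lt_one_iff_mem (K := K), ← vA]
  have h1 : Valued.v (Γ₀ := WithZero (Multiplicative ℤ)) (algebraMap A (v.adicCompletion K) a) ≤ 1 :=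
    (algebraMap A (v.adicCompletionIntegers K) a).2
  constructor
  · intro h
    exact lt_of_le_of_ne h1 h
  · intro h
    exact ne_of_lt h

end

end Run7.h209.PL
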