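import Pool.Agent.Run7.h209.PL.FinPart
import Pool.Agent.Run7.h209.PL.Cmp
import Pool.Agent.Run7.h646.TG.LocB
import Pool.Agent.N134.PJ.Irk

/-!
# Project PRL, piece EQ1: even classes are local images (helper209)
-/

set_option autoImplicit false
set_option linter.all false

open Polynomial IsDedekindDomain WithZero
open scoped Classical

namespace Run7.h209.PL

open Pool.Agent.N874.PP (Ov Ev Sq1)
open Pool.Agent.N352.PJ (IsGen Crd LocIm GoodR Ht dsc S_INT)
open Pool.Agent.N765.PJ (ev ev_L ev_f ev_ker ev_surj ex_poly ev_CQ theta_ex)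
open Run7.h646.TG (fs mem_fs fs_nonempty PF ex_prime)
open Run7.h784.TG (nv Fm)
open Run7.h286.PL (P_FF P_HSQ P_EQ1)

section glob

variable {k K L O : Type} [Field k] [Field K] [Algebra k[X] K] [IsFractionRing k[X] K]
  [Field L] [Algebra K L] [Algebra k[X] L] [IsScalarTower k[X] K L] [CommRing O]
  [IsDedekindDomain O] [Algebra O L] [IsFractionRing O L] [Algebra k[X] O]
  [IsScalarTower k[X] O L] [IsIntegralClosure O k[X] L] {g : ℕ} {f : k[X][X]} {θ : L}
  {Q : k[X]} {κ : Type} [Field κ] {π : k[X] →+* κ} {t : O}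

/-- an element with even valuations at the primes over `Q` is a square times a value `p(θ)` which is a unit
at these primes -/
theorem red_unit (hπs : Function.Surjective π)
    (hπ : ∀ c, π c = 0 ↔ Q ∣ c) (hQ : Irreducible Q)
    (hI : S_INT) (h : IsGen g K f θ) (hsq : Squarefree (dsc g f)) (ht : algebraMap O L t = θ)
    {s : L} (hs0 : s ≠ 0) (hev : ∀ 𝔓 : HeightOneSpectrum O, Ov Q 𝔓 → Ev 𝔓 s) :
    ∃ (γ : L) (p : k[X][X]), γ ≠ 0 ∧ eval₂ (algebraMap k[X] L) θ p = s * γ ^ 2 ∧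
      IsCoprime (f.map π) (p.map π) := by
  have hfin := Run7.h225.TS.Ovr.fin_ov (K := K) (L := L) (O := O) hQ.ne_zero
  have hy : ∀ 𝔓 : HeightOneSpectrum O, ∃ y : L, Ov Q 𝔓 → y ≠ 0 ∧ 𝔓.valuation L s = 𝔓.valuation L y ^ 2 := by
    intro 𝔓
    by_cases hov : Ov Q 𝔓
    · obtain ⟨y, hy⟩ := hev 𝔓 hov
      refine ⟨y, fun _ => ⟨?_, hy⟩⟩
      rintro rfl
      rw [map_zero, zero_pow two_ne_zero] at hy
      exact hs0 ((Valuation.zero_iff _).1 hy)
    · exact ⟨0, fun h' => absurd h' hov⟩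
  choose y hy using hy
  obtain ⟨β, hβ⟩ := Run7.h225.TS.Ovr.approx hfin y (fun 𝔓 h𝔓 => (hy 𝔓 h𝔓).1)
  have hvβ : ∀ 𝔓 : HeightOneSpectrum O, Ov Q 𝔓 → 𝔓.valuation L β = 𝔓.valuation L (y 𝔓) := by
    intro 𝔓 h𝔓
    have e : β = y 𝔓 + (β - y 𝔓) := by ring
    rw [e]
    exact Valuation.map_add_eq_of_lt_left _ (hβ 𝔓 h𝔓)
  obtain ⟨φ₀, hφ₀⟩ := fs_nonempty (h.mon.map π) (by rw [h.mon.natDegree_map, h.deg]; omega)
  obtain ⟨𝔓₀, h𝔓₀⟩ := ex_prime (K := K) hπs hπ hQ hI h hsq ht hφ₀
  have hβ0 : β ≠ 0 := by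
    rintro rfl
    have h1 := hvβ 𝔓₀ h𝔓₀.ov
    rw [map_zero] at h1
    exact (hy 𝔓₀ h𝔓₀.ov).1 ((Valuation.zero_iff _).1 h1.symm)
  have hv1 : ∀ 𝔓 : HeightOneSpectrum O, Ov Q 𝔓 → 𝔓.valuation L (s * (β⁻¹) ^ 2) = 1 := by
    intro 𝔓 h𝔓
    have h3 : 𝔓.valuation L (y 𝔓) ≠ 0 := (Valuation.ne_zero_iff _).2 (hy 𝔓 h𝔓).1
    rw [map_mul, map_pow, map_inv₀, hvβ 𝔓 h𝔓, (hy 𝔓 h𝔓).2, inv_pow, mul_inv_cancel₀ (pow_ne_zero 2 h3)]
  obtain ⟨c, z, hc, hz⟩ := Pool.Agent.N227.PJ.exists_den_Q (K := K) h ht hQ (s * (β⁻¹) ^ 2)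
    (fun 𝔓 h𝔓 => (hv1 𝔓 h𝔓).le)
  have hc0 : algebraMap k[X] L c ≠ 0 := by
    intro h0
    have : c = 0 := Pool.Agent.N765.PJ.inj_L (L := L) K (by rw [h0, map_zero])
    exact hc (by rw [this]; exact dvd_zero _)
  have hvc : ∀ 𝔮 : HeightOneSpectrum O, Ov Q 𝔮 → 𝔮.valuation L (algebraMap k[X] L c) = 1 := by
    intro 𝔮 h𝔮
    rw [← Pool.Agent.N765.PJ.mapO (O := O)]
    exact 𝔮.valuation_eq_one_iff_notMem.mpr fun h3 => hc ((Pool.Agent.N765.PJ.ov_iff hQ h𝔮 c).1 h3)
  have hw : algebraMap O L (algebraMap k[X] O c * z) = s * (algebraMap k[X] L c * β⁻¹) ^ 2 := by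
    rw [map_mul, Pool.Agent.N765.PJ.mapO, ← hz]
    ring
  have hcβ : algebraMap k[X] L c * β⁻¹ ≠ 0 := mul_ne_zero hc0 (inv_ne_zero hβ0)
  obtain ⟨p, hpd, hp⟩ := ex_poly (K := K) hI h hsq ht (algebraMap k[X] O c * z)
  rw [← hp] at hw
  have hwn : ∀ 𝔓 : HeightOneSpectrum O, Ov Q 𝔓 → ev t p ∉ 𝔓.asIdeal := by
    intro 𝔓 h𝔓 hmem
    have h3 : 𝔓.valuation L (algebraMap O L (ev t p)) < 1 := (𝔓.valuation_lt_one_iff_mem _).mpr hmem
    have h4 : algebraMap O L (ev t p) = algebraMap k[X] L c ^ 2 * (s * (β⁻¹) ^ 2) := by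
      rw [hw]; ring
    rw [h4, map_mul, map_pow, hvc 𝔓 h𝔓, hv1 𝔓 h𝔓, one_pow, one_mul] at h3
    exact lt_irrefl _ h3
  refine ⟨algebraMap k[X] L c * β⁻¹, p, hcβ, ?_, ?_⟩
  · rw [← ev_L ht, hw]
  · refine isCoprime_of_irreducible_dvd (fun h0 => (h.mon.map π).ne_zero h0.1) ?_
    intro φ hφ hd1 hd2
    have hl : φ.leadingCoeff ≠ 0 := leadingCoeff_ne_zero.2 hφ.ne_zero
    have hu : IsUnit (C (φ.leadingCoeff)⁻¹) := isUnit_C.2 (IsUnit.mk0 _ (inv_ne_zero hl))
    have hass : Associated φ (φ * C (φ.leadingCoeff)⁻¹) := associated_mul_unit_right _ _ hu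
    have hφ' : φ * C (φ.leadingCoeff)⁻¹ ∈ fs (f.map π) :=
      (mem_fs (h.mon.map π).ne_zero).2 ⟨monic_mul_leadingCoeff_inv hφ.ne_zero,
        hass.irreducible hφ, hass.dvd_iff_dvd_left.1 hd1⟩
    obtain ⟨𝔓, h𝔓⟩ := ex_prime (K := K) hπs hπ hQ hI h hsq ht hφ'
    exact hwn 𝔓 h𝔓.ov ((h𝔓.mem p).2 (hass.dvd_iff_dvd_left.1 hd2))

omit [IsIntegralClosure O k[X] L] in
/-- `K[x] / (f_D) ≅ L`, `x ↦ D θ` -/
theorem ex_e {N : ℕ} {r : k[X]} (hFm : Fm g N r f) (hc : IsGen g K f θ) {D : k[X]} (hD0 : D ≠ 0) :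
    ∃ e : AdjoinRoot ((f.scaleRoots D).map (algebraMap k[X] K)) ≃ₐ[K] L, ∀ p : K[X],
      e (AdjoinRoot.mk _ p) = aeval (algebraMap k[X] L D * θ) p := by
  have hF := hFm.fam
  have hm := hc.mon
  have hd := hc.deg
  set F' : K[X] := (f.scaleRoots D).map (algebraMap k[X] K) with hF'
  haveI hfact' : Fact (Irreducible F') :=
    ⟨(Pool.Agent.N134.PJ.irk g k K f N r D hF.ht hFm.gr hF.inf hD0).2.1⟩
  set Θ : L := algebraMap k[X] L D * θ with hΘ
  have hroot : aeval Θ F' = 0 := by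
    rw [hF', aeval_map_algebraMap]
    have := scaleRoots_eval₂_mul (p := f) (algebraMap k[X] L) θ D
    rw [hc.root, mul_zero] at this
    rw [aeval_def]
    exact this
  have hmF' : F'.Monic := ((monic_scaleRoots_iff D).2 hm).map _
  let φ : AdjoinRoot F' →ₐ[K] L := AdjoinRoot.liftAlgHom F' (Algebra.ofId K _) Θ hroot
  have hφmk : ∀ p : K[X], φ (AdjoinRoot.mk F' p) = aeval Θ p := by
    intro p
    have h1 := AdjoinRoot.liftAlgHom_mk F' (Algebra.ofId K L) Θ hroot p
    rw [Algebra.toRingHom_ofId, ← Polynomial.aeval_def] at h1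
    exact h1
  have hφinj : Function.Injective φ := φ.toRingHom.injective
  haveI : FiniteDimensional K (AdjoinRoot F') := hmF'.finite_adjoinRoot
  haveI : FiniteDimensional K L := by
    apply FiniteDimensional.of_finrank_pos
    rw [hc.rank]; omega
  have hrk : Module.finrank K (AdjoinRoot F') = Module.finrank K L := by
    rw [hc.rank, (AdjoinRoot.powerBasis hmF'.ne_zero).finrank, AdjoinRoot.powerBasis_dim, hF',
      ((monic_scaleRoots_iff D).2 hm).natDegree_map, natDegree_scaleRoots, hd]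
  have hφsurj : Function.Surjective φ :=
    (LinearMap.injective_iff_surjective_of_finrank_eq_finrank (f := φ.toLinearMap) hrk).1 hφinj
  exact ⟨AlgEquiv.ofBijective φ ⟨hφinj, hφsurj⟩, hφmk⟩

end glob

section scale

variable {k κ : Type} [Field k] [Field κ] {π : k[X] →+* κ}

/-- coprimality after scaling -/
theorem cop_scale {f p : k[X][X]} (hf : f.Monic) {D : k[X]} (hD : π D ≠ 0)
    (hc : IsCoprime (f.map π) (p.map π)) (m : ℕ) :
    IsCoprime ((f.scaleRoots D).map π) ((C (D ^ m) * p.scaleRoots D).map π) := by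
  have hc := (Polynomial.isCoprime_iff_aeval_ne_zero_of_isAlgClosed (k := κ) (AlgebraicClosure κ) _ _).1 hc
  refine (Polynomial.isCoprime_iff_aeval_ne_zero_of_isAlgClosed (k := κ) (AlgebraicClosure κ) _ _).2 ?_
  intro a
  set ι := algebraMap κ (AlgebraicClosure κ) with hι
  have hD' : (ι.comp π) D ≠ 0 := by
    rw [RingHom.comp_apply]
    exact (_root_.map_ne_zero _).2 hD
  obtain ⟨b, hb⟩ : ∃ b, a = (ι.comp π) D * b := ⟨((ι.comp π) D)⁻¹ * a, by
    rw [← mul_assoc, mul_inv_cancel₀ hD', one_mul]⟩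
  have key : ∀ q : k[X][X], aeval a (q.map π) = eval₂ (ι.comp π) a q := by
    intro q
    rw [aeval_def, eval₂_map]
  rw [key, key, Polynomial.eval₂_mul, eval₂_C, hb, scaleRoots_eval₂_mul, scaleRoots_eval₂_mul]
  have key2 : ∀ q : k[X][X], aeval b (q.map π) = eval₂ (ι.comp π) b q := by
    intro q
    rw [aeval_def, eval₂_map]
  rcases hc b with h1 | h1
  · left
    rw [key2] at h1
    exact mul_ne_zero (pow_ne_zero _ hD') h1
  · right
    rw [key2] at h1
    refine mul_ne_zero ?_ (mul_ne_zero (pow_ne_zero _ hD') h1)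
    rw [map_pow]
    exact pow_ne_zero _ hD'

end scale

section res

variable {R : Type} [CommRing R] [IsLocalRing R]

theorem coeff_mem {I : Ideal R} (hI : IsLocalRing.maximalIdeal R = I) {p : R[X]}
    (h : p.map (IsLocalRing.residue R) = 0) (j : ℕ) : p.coeff j ∈ I := by
  rw [← hI, ← IsLocalRing.residue_eq_zero_iff, ← coeff_map, h, coeff_zero]

/-- coprimality from the residue field -/
theorem cop_of_res {F u : R[X]} (hF : F.Monic)
    (h : IsCoprime (F.map (IsLocalRing.residue R)) (u.map (IsLocalRing.residue R))) : IsCoprime F u := by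
  have h0 := nv_ne h
  rw [Run7.h886.TG.nv_eq _ _ (hF.map _) u.natDegree natDegree_map_le, hF.natDegree_map,
    resultant_map_map] at h0
  have h1 : IsUnit (resultant F u F.natDegree u.natDegree) :=
    (IsLocalRing.residue_ne_zero_iff_isUnit _).1 h0
  by_cases hd : F.natDegree = 0 ∧ u.natDegree = 0
  · have : F = 1 := eq_one_of_monic_natDegree_zero hF hd.1
    rw [this]
    exact isCoprime_one_left
  · obtain ⟨p, q, -, -, h3⟩ := exists_mul_add_mul_eq_C_resultant F u (le_refl F.natDegree) (le_refl u.natDegree)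
      (by omega)
    obtain ⟨w, hw⟩ := h1.exists_left_inv
    refine ⟨C w * p, C w * q, ?_⟩
    have : C w * p * F + C w * q * u = C w * (F * p + u * q) := by ring
    rw [this, h3, ← C_mul, hw, C_1]

end res

/-- **EQ1** -/
theorem T_EQ1 (hFF : P_FF) (hHSQ : P_HSQ) : P_EQ1 := by
  intro k K L O _ _ _ _ _ _ _ _ _ _ _ _ _ _ _ _ g N r f θ hFm hc P v hP hv D h hPD hne hnorm hev
  have hI : S_INT := Pool.Agent.N769.PJ.int
  have hsqf : Squarefree (dsc g f) := hFm.fam.sq
  obtain ⟨t, ht⟩ := theta_ex O hc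
  have hD0 : D ≠ 0 := by
    rintro rfl
    exact hPD (dvd_zero _)
  -- the completion
  obtain ⟨π, hπd⟩ : ∃ π : k[X] →+* IsLocalRing.ResidueField (v.adicCompletionIntegers K),
      π = (IsLocalRing.residue (v.adicCompletionIntegers K)).comp
        (algebraMap k[X] (v.adicCompletionIntegers K)) := ⟨_, rfl⟩
  have hπs : Function.Surjective π := by
    intro x
    obtain ⟨y, rfl⟩ := IsLocalRing.residue_surjective x
    obtain ⟨a, ha⟩ := near_A (K := K) (v := v) y
    refine ⟨a, ?_⟩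
    rw [hπd, RingHom.comp_apply, eq_comm, ← sub_eq_zero, ← map_sub, IsLocalRing.residue_eq_zero_iff]
    exact ha
  have hπ : ∀ c, π c = 0 ↔ P ∣ c := by
    intro c
    rw [hπd, RingHom.comp_apply, IsLocalRing.residue_eq_zero_iff]
    exact mem_iff (K := K) hv c
  have hfinκ : Finite (IsLocalRing.ResidueField (v.adicCompletionIntegers K)) := by
    have hd1 : Module.finrank k (k[X] ⧸ Ideal.span {P}) = P.natDegree :=
      finrank_quotient_span_eq_natDegree
    have f1 : Module.Finite k (k[X] ⧸ Ideal.span {P}) :=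
      Module.finite_of_finrank_pos (by rw [hd1]; exact hP.natDegree_pos)
    have f2 : Finite (k[X] ⧸ Ideal.span {P}) := Module.finite_of_finite k
    have hker : ∀ a ∈ Ideal.span {P}, π a = 0 := by
      intro a ha
      exact (hπ a).2 (Ideal.mem_span_singleton.1 ha)
    exact Finite.of_surjective (Ideal.Quotient.lift (Ideal.span {P}) π hker)
      (Ideal.Quotient.lift_surjective_of_surjective _ hker hπs)
  have h2 : (2 : IsLocalRing.ResidueField (v.adicCompletionIntegers K)) ≠ 0 := by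
    intro h0
    have h1 : π (C 2) = 0 := by
      rw [show (C 2 : k[X]) = 2 from rfl, map_ofNat]
      exact h0
    rw [hπ] at h1
    have h3 : IsUnit (C (2 : k)) := isUnit_C.2 (IsUnit.mk0 _ hFm.two)
    exact hP.not_isUnit (isUnit_of_dvd_unit h1 h3)
  -- reduction to a unit
  obtain ⟨γ, p, hγ, hp, hcop⟩ := red_unit (K := K) hπs hπ hP hI hc hsqf ht hne hev
  have hDπ : π D ≠ 0 := fun h0 => hPD ((hπ D).1 h0)
  obtain ⟨FD, hFD⟩ : ∃ FD, FD = f.scaleRoots D := ⟨_, rfl⟩
  obtain ⟨H, hH⟩ : ∃ H, H = C (D ^ p.natDegree) * p.scaleRoots D := ⟨_, rfl⟩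
  have hFDm : FD.Monic := by rw [hFD]; exact (monic_scaleRoots_iff D).2 hc.mon
  have hFDd : FD.natDegree = 2 * g + 1 := by rw [hFD, natDegree_scaleRoots, hc.deg]
  have hcop' : IsCoprime (FD.map π) (H.map π) := by
    rw [hFD, hH]
    exact cop_scale hc.mon hDπ hcop _
  obtain ⟨e, he⟩ := ex_e (K := K) hFm hc hD0
  have hHv : aeval (algebraMap k[X] L D * θ) (H.map (algebraMap k[X] K)) =
      aeval (algebraMap k[X] L D * θ) h * (algebraMap k[X] L D ^ p.natDegree * γ) ^ 2 := by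
    rw [aeval_map_algebraMap, aeval_def, hH, Polynomial.eval₂_mul, eval₂_C, scaleRoots_eval₂_mul, hp, map_pow]
    ring
  have hDL : algebraMap k[X] L D ≠ 0 := by
    intro h0
    exact hD0 (Pool.Agent.N765.PJ.inj_L (L := L) K (by rw [h0, map_zero]))
  obtain ⟨γ', hγ'⟩ : ∃ γ', γ' = algebraMap k[X] L D ^ p.natDegree * γ := ⟨_, rfl⟩
  rw [← hγ'] at hHv
  have hγ'0 : γ' ≠ 0 := by rw [hγ']; exact mul_ne_zero (pow_ne_zero _ hDL) hγ
  -- the norm
  have hnsq : IsSquare (nv (FD.map π) (H.map π)) := by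
    have h1 : Algebra.norm K (aeval (algebraMap k[X] L D * θ) (H.map (algebraMap k[X] K))) =
        algebraMap k[X] K (resultant FD H (2 * g + 1) H.natDegree) := by
      have h3 := Run7.h886.TG.nv_eq (FD.map (algebraMap k[X] K)) (H.map (algebraMap k[X] K)) (hFDm.map _)
        H.natDegree natDegree_map_le
      rw [hFDm.natDegree_map, hFDd, resultant_map_map] at h3
      rw [← h3, ← he, Algebra.norm_eq_of_algEquiv, hFD]
      rfl
    have h3 : IsSquare (algebraMap k[X] K (resultant FD H (2 * g + 1) H.natDegree)) := by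
      rw [← h1, hHv, map_mul, map_pow]
      obtain ⟨z, hz⟩ := hnorm
      exact ⟨z * Algebra.norm K γ', by rw [hz]; ring⟩
    obtain ⟨ρ, hρ⟩ := h3
    have hint : IsIntegral k[X] ρ := by
      refine IsIntegral.of_pow (n := 2) (by norm_num) ?_
      rw [sq, ← hρ]
      exact isIntegral_algebraMap
    obtain ⟨m, rfl⟩ := IsIntegrallyClosed.isIntegral_iff.mp hint
    rw [← map_mul] at hρ
    have hm := IsFractionRing.injective k[X] K hρ
    rw [Run7.h886.TG.nv_eq _ _ (hFDm.map π) H.natDegree natDegree_map_le, hFDm.natDegree_map, hFDd,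
      resultant_map_map, hm]
    exact ⟨π m, map_mul _ _ _⟩
  -- the finite field
  obtain ⟨u, w, s, hum, hue, huF, huw, hus⟩ := ff' hFF h2 (hFDm.map π)
    (by rw [hFDm.natDegree_map, hFDd]; exact ⟨g, rfl⟩) hcop' hnsq
  -- lifting
  have hmax := maxIdeal (K := K) hv
  haveI := adic (K := K) hv
  have h2R : IsUnit (2 : v.adicCompletionIntegers K) := by
    rw [← IsLocalRing.residue_ne_zero_iff_isUnit, map_ofNat]
    exact h2
  have hsur : Function.Surjective (Polynomial.map (IsLocalRing.residue (v.adicCompletionIntegers K))) :=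
    Polynomial.map_surjective _ IsLocalRing.residue_surjective
  obtain ⟨u', hu'1, hu'2, hu'3⟩ := lifts_and_natDegree_eq_and_monic (f := IsLocalRing.residue (v.adicCompletionIntegers K))
    (p := u) (by
      obtain ⟨q, hq⟩ := hsur u
      exact (mem_lifts _).2 ⟨q, hq⟩) hum
  obtain ⟨FR, hFR⟩ : ∃ FR, FR = FD.map (algebraMap k[X] (v.adicCompletionIntegers K)) := ⟨_, rfl⟩
  obtain ⟨HR, hHR⟩ : ∃ HR, HR = H.map (algebraMap k[X] (v.adicCompletionIntegers K)) := ⟨_, rfl⟩
  have hFRm : FR.Monic := by rw [hFR]; exact hFDm.map _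
  have hFRr : FR.map (IsLocalRing.residue (v.adicCompletionIntegers K)) = FD.map π := by
    rw [hFR, Polynomial.map_map, hπd]
  have hHRr : HR.map (IsLocalRing.residue (v.adicCompletionIntegers K)) = H.map π := by
    rw [hHR, Polynomial.map_map, hπd]
  -- first square root
  obtain ⟨s₁, q₁, hs₁⟩ : ∃ s' q' : (v.adicCompletionIntegers K)[X], FR = s' ^ 2 + u' * q' := by
    obtain ⟨w', hw'⟩ := hsur w
    obtain ⟨d, hd⟩ := huw
    obtain ⟨d', hd'⟩ := hsur (-d)
    obtain ⟨a, b, hab⟩ := huF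
    obtain ⟨a', ha'⟩ := hsur a
    obtain ⟨b', hb'⟩ := hsur b
    refine hHSQ _ (Ideal.span {algebraMap k[X] (v.adicCompletionIntegers K) P}) h2R u' FR w' d' hu'3
      (coeff_mem hmax ?_) ⟨b', a', coeff_mem hmax ?_⟩
    · rw [Polynomial.map_sub, Polynomial.map_sub, Polynomial.map_mul, Polynomial.map_pow, hFRr, hu'1, hw', hd']
      linear_combination -hd
    · rw [Polynomial.map_sub, Polynomial.map_add, Polynomial.map_mul, Polynomial.map_mul, hFRr, hu'1, ha', hb',
        Polynomial.map_one]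
      linear_combination hab
  -- second square root
  obtain ⟨s₂, q₂, hs₂⟩ : ∃ s' q' : (v.adicCompletionIntegers K)[X], HR * u' = s' ^ 2 + FR * q' := by
    obtain ⟨s', hs'⟩ := hsur s
    obtain ⟨d, hd⟩ := hus
    obtain ⟨d', hd'⟩ := hsur d
    obtain ⟨a, b, hab⟩ : IsCoprime (H.map π * u) (FD.map π) := hcop'.symm.mul_left huF
    obtain ⟨a', ha'⟩ := hsur a
    obtain ⟨b', hb'⟩ := hsur b
    refine hHSQ _ (Ideal.span {algebraMap k[X] (v.adicCompletionIntegers K) P}) h2R FR (HR * u') s' d' hFRm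
      (coeff_mem hmax ?_) ⟨a', b', coeff_mem hmax ?_⟩
    · rw [Polynomial.map_sub, Polynomial.map_sub, Polynomial.map_mul, Polynomial.map_mul, Polynomial.map_pow,
        hFRr, hHRr, hu'1, hs', hd']
      linear_combination hd
    · rw [Polynomial.map_sub, Polynomial.map_add, Polynomial.map_mul, Polynomial.map_mul, Polynomial.map_mul,
        hFRr, hHRr, hu'1, ha', hb', Polynomial.map_one]
      linear_combination hab
  have hcopR : IsCoprime FR u' := by
    refine cop_of_res hFRm ?_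
    rw [hFRr, hu'1]
    exact huF.symm
  -- the relation between `h` and `H`
  obtain ⟨b, hb⟩ : ∃ b : K[X], aeval (algebraMap k[X] L D * θ) b = γ'⁻¹ := by
    obtain ⟨y, hy⟩ := e.surjective γ'⁻¹
    obtain ⟨b, rfl⟩ := AdjoinRoot.mk_surjective y
    exact ⟨b, by rw [← he]; exact hy⟩
  have hrel : FD.map (algebraMap k[X] K) ∣ h - H.map (algebraMap k[X] K) * b ^ 2 := by
    rw [hFD, ← AdjoinRoot.mk_eq_zero]
    apply e.injective
    rw [map_zero, he, map_sub, map_mul, map_pow, hHv, hb]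
    field_simp
    ring
  -- assembly
  have hcomp : (algebraMap (v.adicCompletionIntegers K) (v.adicCompletion K)).comp
      (algebraMap k[X] (v.adicCompletionIntegers K)) =
      (algebraMap K (v.adicCompletion K)).comp (algebraMap k[X] K) := by
    ext x
    · rfl
    · rfl
  have hFE : FR.map (algebraMap (v.adicCompletionIntegers K) (v.adicCompletion K)) =
      FD.map ((algebraMap K (v.adicCompletion K)).comp (algebraMap k[X] K)) := by
    rw [hFR, Polynomial.map_map, hcomp]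
  have hHE : HR.map (algebraMap (v.adicCompletionIntegers K) (v.adicCompletion K)) =
      H.map ((algebraMap K (v.adicCompletion K)).comp (algebraMap k[X] K)) := by
    rw [hHR, Polynomial.map_map, hcomp]
  rw [← hFD]
  refine ⟨[(u'.map (algebraMap (v.adicCompletionIntegers K) (v.adicCompletion K)),
    s₁.map (algebraMap (v.adicCompletionIntegers K) (v.adicCompletion K)))],
    s₂.map (algebraMap (v.adicCompletionIntegers K) (v.adicCompletion K)) *
      b.map (algebraMap K (v.adicCompletion K)), ?_, ?_⟩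
  · intro x hx
    rw [List.mem_singleton] at hx
    subst hx
    refine ⟨hu'3.map _, ?_, ?_⟩
    · rw [← hFE]
      exact (hcopR.symm.map (mapRingHom (algebraMap (v.adicCompletionIntegers K) (v.adicCompletion K))))
    · rw [← hFE]
      refine ⟨-(q₁.map (algebraMap (v.adicCompletionIntegers K) (v.adicCompletion K))), ?_⟩
      have := congrArg (Polynomial.map (algebraMap (v.adicCompletionIntegers K) (v.adicCompletion K))) hs₁
      rw [Polynomial.map_add, Polynomial.map_mul, Polynomial.map_pow] at this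
      rw [this]
      ring
  · obtain ⟨d, hd⟩ := hrel
    have h5 := congrArg (Polynomial.map (algebraMap K (v.adicCompletion K))) hd
    rw [Polynomial.map_sub, Polynomial.map_mul, Polynomial.map_mul, Polynomial.map_pow, Polynomial.map_map,
      Polynomial.map_map] at h5
    have h6 := congrArg (Polynomial.map (algebraMap (v.adicCompletionIntegers K) (v.adicCompletion K))) hs₂
    rw [Polynomial.map_add, Polynomial.map_mul, Polynomial.map_mul, Polynomial.map_pow, hFE, hHE] at h6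
    have hev' : ((-1 : (v.adicCompletion K)[X]) ^
        (u'.map (algebraMap (v.adicCompletionIntegers K) (v.adicCompletion K))).natDegree) = 1 := by
      rw [hu'3.natDegree_map, hu'2]
      exact hue.neg_one_pow
    simp only [List.map_cons, List.map_nil, List.prod_cons, List.prod_nil, mul_one]
    rw [hev', one_mul]
    refine ⟨d.map (algebraMap K (v.adicCompletion K)) *
        u'.map (algebraMap (v.adicCompletionIntegers K) (v.adicCompletion K)) +
        b.map (algebraMap K (v.adicCompletion K)) ^ 2 *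
          q₂.map (algebraMap (v.adicCompletionIntegers K) (v.adicCompletion K)), ?_⟩
    linear_combination (u'.map (algebraMap (v.adicCompletionIntegers K) (v.adicCompletion K))) * h5 +
      (b.map (algebraMap K (v.adicCompletion K)) ^ 2) * h6

end Run7.h209.PL
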