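import Pool.Agent.Run7.h286.PL.StmS
import Pool.Agent.Run7.h886.TG.NvL

/-!
# Project PRL, piece EQ1: the part over the finite field (helper209)
-/

set_option autoImplicit false
set_option linter.all false

open Polynomial

namespace Run7.h209.PL

open Run7.h784.TG (nv)
open Run7.h286.PL (P_FF)

variable {κ : Type} [Field κ]

theorem nv_mul_left {a b : κ[X]} (ha : a.Monic) (hb : b.Monic) (p : κ[X]) :
    nv (a * b) p = nv a p * nv b p := by
  rw [Run7.h886.TG.nv_eq _ p (ha.mul hb) _ le_rfl, Run7.h886.TG.nv_eq _ p ha _ le_rfl,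
    Run7.h886.TG.nv_eq _ p hb _ le_rfl, ha.natDegree_mul hb, ← resultant_mul_left _ _ _ _ le_rfl]

theorem nv_ne {a p : κ[X]} (h : IsCoprime a p) : nv a p ≠ 0 := by
  obtain ⟨u, w, huw⟩ := h
  have h1 : AdjoinRoot.mk a p * AdjoinRoot.mk a w = 1 := by
    have := congrArg (AdjoinRoot.mk a) huw
    rw [map_add, map_mul, map_mul, AdjoinRoot.mk_self, mul_zero, zero_add, map_one] at this
    rw [mul_comm]
    exact this
  exact ((IsUnit.of_mul_eq_one _ h1).map (Algebra.norm κ)).ne_zero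

/-- squarefree part -/
theorem sq_decomp (n : ℕ) : ∀ F : κ[X], F.Monic → F.natDegree = n →
    ∃ a G : κ[X], a.Monic ∧ G.Monic ∧ Squarefree a ∧ F = a * G ^ 2 := by
  induction n using Nat.strong_induction_on with
  | _ n ih =>
    intro F hF hn
    by_cases hs : Squarefree F
    · exact ⟨F, 1, hF, monic_one, hs, by ring⟩
    · unfold Squarefree at hs
      push Not at hs
      obtain ⟨x, ⟨w, hw⟩, hx⟩ := hs
      have hx0 : x ≠ 0 := by
        rintro rfl
        rw [zero_mul, zero_mul] at hw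
        exact hF.ne_zero hw
      have hl : x.leadingCoeff ≠ 0 := leadingCoeff_ne_zero.2 hx0
      obtain ⟨y, hy⟩ : ∃ y, y = x * C (x.leadingCoeff)⁻¹ := ⟨_, rfl⟩
      have hym : y.Monic := by rw [hy]; exact monic_mul_leadingCoeff_inv hx0
      have hxy : x = y * C x.leadingCoeff := by
        rw [hy, mul_assoc, ← C_mul, inv_mul_cancel₀ hl, C_1, mul_one]
      have hyu : 0 < y.natDegree := by
        by_contra hc
        have h1 : y = 1 := eq_one_of_monic_natDegree_zero hym (by omega)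
        apply hx
        rw [hxy, h1, one_mul]
        exact isUnit_C.2 (IsUnit.mk0 _ hl)
      obtain ⟨w', hw'⟩ : ∃ w', w' = C (x.leadingCoeff) * C x.leadingCoeff * w := ⟨_, rfl⟩
      have hF' : F = (y * y) * w' := by
        rw [hw, hw']
        conv_lhs => rw [hxy]
        ring
      have hwm : w'.Monic := by
        have := hF
        rw [hF'] at this
        exact (hym.mul hym).of_mul_monic_left this
      have hdeg : F.natDegree = y.natDegree + y.natDegree + w'.natDegree := by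
        rw [hF', (hym.mul hym).natDegree_mul hwm, hym.natDegree_mul hym]
      obtain ⟨a, G, ha, hG, hsa, hwG⟩ := ih w'.natDegree (by omega) w' hwm rfl
      refine ⟨a, y * G, ha, hym.mul hG, hsa, ?_⟩
      rw [hF', hwG]
      ring

/-- radical -/
theorem rad (F : κ[X]) (hF : F ≠ 0) : ∃ (y : κ[X]) (n : ℕ), y.Monic ∧ Squarefree y ∧ y ∣ F ∧
    F ∣ y ^ n := by
  obtain ⟨y, n, hy, h1, h2⟩ := exists_squarefree_dvd_pow_of_ne_zero hF
  have hy0 : y ≠ 0 := hy.ne_zero
  have hl : y.leadingCoeff ≠ 0 := leadingCoeff_ne_zero.2 hy0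
  have hu : IsUnit (C (y.leadingCoeff)⁻¹) := isUnit_C.2 (IsUnit.mk0 _ (inv_ne_zero hl))
  have hass : Associated y (y * C (y.leadingCoeff)⁻¹) := associated_mul_unit_right _ _ hu
  refine ⟨y * C (y.leadingCoeff)⁻¹, n, monic_mul_leadingCoeff_inv hy0, ?_, ?_, ?_⟩
  · exact (hass.squarefree_iff).1 hy
  · exact hass.dvd_iff_dvd_left.1 h1
  · exact (hass.pow_pow).dvd_iff_dvd_right.1 h2

/-- lifting of square roots modulo nilpotent elements -/
theorem lift_nil [Finite κ] (h2 : (2 : κ) ≠ 0) {F y c s : κ[X]} {n : ℕ} (hyF : y ∣ F) (hF : F ∣ y ^ n)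
    (hc : IsCoprime c y) (hs : y ∣ c - s ^ 2) : ∃ s' : κ[X], F ∣ c - s' ^ 2 := by
  obtain ⟨p, hp⟩ := CharP.exists κ
  have hp' : p.Prime := CharP.char_is_prime κ p
  haveI : Fact p.Prime := ⟨hp'⟩
  have hodd : Odd p := by
    rcases hp'.eq_two_or_odd' with h | h
    · exfalso
      apply h2
      have := CharP.cast_eq_zero κ p
      rw [h] at this
      exact_mod_cast this
    · exact h
  -- `s` is a unit modulo `F`
  have hsy : IsCoprime s y := by
    obtain ⟨a, b, hab⟩ := hc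
    obtain ⟨d, hd⟩ := hs
    refine ⟨a * s, a * d + b, ?_⟩
    linear_combination hab - a * hd
  have hsF : IsCoprime s F := (hsy.pow_right (n := n)).of_isCoprime_of_dvd_right hF
  obtain ⟨t, t', ht⟩ := hsF
  have hst : F ∣ s * t - 1 := ⟨-t', by linear_combination ht⟩
  obtain ⟨w, hw⟩ : ∃ w, w = c * t ^ 2 := ⟨_, rfl⟩
  have hyw : y ∣ w - 1 := by
    have e : w - 1 = (c - s ^ 2) * t ^ 2 + (s * t - 1) * (s * t + 1) := by rw [hw]; ring
    rw [e]
    exact dvd_add (hs.mul_right _) ((hyF.trans hst).mul_right _)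
  obtain ⟨q, hq⟩ : ∃ q, q = p ^ n := ⟨_, rfl⟩
  have hqn : n ≤ q := by rw [hq]; exact (Nat.lt_pow_self hp'.one_lt).le
  have hFw : F ∣ w ^ q - 1 := by
    have e : w ^ q - 1 = (w - 1) ^ q := by
      rw [hq, sub_pow_char_pow, one_pow]
    rw [e]
    exact (hF.trans (pow_dvd_pow _ hqn)).trans (pow_dvd_pow_of_dvd hyw _)
  obtain ⟨m, hm⟩ : Odd q := by rw [hq]; exact hodd.pow
  refine ⟨s * w ^ (m + 1), ?_⟩
  have e : c - (s * w ^ (m + 1)) ^ 2 = -(c * (s * t + 1)) * (s * t - 1) - s ^ 2 * w * (w ^ q - 1) := by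
    have e1 : (s * w ^ (m + 1)) ^ 2 = s ^ 2 * w * w ^ q := by rw [hm]; ring
    rw [e1, hw]
    ring
  rw [e]
  exact dvd_sub (hst.mul_left _) (hFw.mul_left _)

/-- the form of FF that is needed: `F` monic of odd degree, not necessarily squarefree -/
theorem ff' [Finite κ] (hFF : P_FF) (h2 : (2 : κ) ≠ 0) {F h : κ[X]} (hF : F.Monic) (hodd : Odd F.natDegree)
    (hcop : IsCoprime F h) (hsq : IsSquare (nv F h)) :
    ∃ u v s : κ[X], u.Monic ∧ Even u.natDegree ∧ IsCoprime u F ∧ u ∣ v ^ 2 - F ∧ F ∣ h * u - s ^ 2 := by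
  obtain ⟨a, G, ha, hG, hsa, hFG⟩ := sq_decomp F.natDegree F hF rfl
  obtain ⟨y, n, hym, hys, hyF, hFy⟩ := rad F hF.ne_zero
  have hay : a ∣ y := by
    have h1 : a ∣ y ^ n := (Dvd.intro _ hFG.symm).trans hFy
    by_cases hn : n = 0
    · rw [hn, pow_zero] at h1
      exact h1.trans (one_dvd _)
    · exact (hsa.dvd_pow_iff_dvd hn).1 h1
  obtain ⟨b, hb⟩ := hay
  have hbm : b.Monic := by
    rw [hb] at hym
    exact ha.of_mul_monic_left hym
  have hda : 0 < a.natDegree := by
    have h1 : F.natDegree = a.natDegree + 2 * G.natDegree := by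
      rw [hFG, ha.natDegree_mul (hG.pow 2), hG.natDegree_pow]
    obtain ⟨m, hm⟩ := hodd
    omega
  have hhy : IsCoprime h y := hcop.symm.of_isCoprime_of_dvd_right hyF
  have hsq' : IsSquare (Algebra.norm κ (AdjoinRoot.mk a h)) := by
    change IsSquare (nv a h)
    have h1 : nv F h = nv a h * nv G h ^ 2 := by
      rw [hFG, nv_mul_left ha (hG.pow 2), sq, nv_mul_left hG hG, sq]
    have h3 : nv G h ≠ 0 := by
      refine nv_ne (hcop.of_isCoprime_of_dvd_left ?_)
      exact ⟨a * G, by rw [hFG]; ring⟩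
    rw [h1] at hsq
    obtain ⟨z, hz⟩ := hsq
    refine ⟨z / nv G h, ?_⟩
    field_simp
    linear_combination hz
  obtain ⟨u, v, s, hum, hui, hue, huc, huv, hus⟩ := hFF κ h2 a b h ha hbm hda (by rw [← hb]; exact hys)
    (by rw [← hb]; exact hhy) hsq'
  rw [← hb] at huc hus
  have huF : IsCoprime u F := (huc.pow_right (n := n)).of_isCoprime_of_dvd_right hFy
  obtain ⟨s', hs'⟩ := lift_nil h2 (c := h * u) (s := s) hyF hFy (hhy.mul_left huc) hus
  refine ⟨u, v * G, s', hum, hue, huF, ?_, hs'⟩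
  have e : (v * G) ^ 2 - F = (v ^ 2 - a) * G ^ 2 := by rw [hFG]; ring
  rw [e]
  exact huv.mul_right _

end Run7.h209.PL
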